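import Pool.Agent.H20.SM.TW
import Pool.Agent.H37.CV.All

/-!
# Row AF1w: the first approximate functional equation near the critical line
-/

set_option autoImplicit false

open NumberField NumberField.InfinitePlace Complex MeasureTheory Set Filter Topology

namespace Pool.Agent.H49.SM

open Pool.Agent.H37.CV Pool.Agent.H28.RC Pool.Agent.H25.HK Pool.Agent.H56.CV Pool.Agent.H20.SM

section

variable {K : Type} [Field K] [NumberField K]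

theorem aw_nm_one (I : NI K) : 1 ≤ nm I.1 := by
  have h := Pool.Agent.H56.CV.nm_pos I
  unfold nm at h ⊢
  have h1 : 0 < Ideal.absNorm I.1 := by exact_mod_cast h
  exact_mod_cast h1

theorem aw_cnd_one (χ : RCC K) : 1 ≤ cnd K χ.f := by
  unfold cnd
  have h1 : (1 : ℤ) ≤ |discr K| := Int.one_le_abs (discr_ne_zero K)
  have h2 : (1 : ℝ) ≤ |(discr K : ℝ)| := by exact_mod_cast h1
  have h3 : (1 : ℝ) ≤ nm χ.f := aw_nm_one ⟨χ.f, χ.f_ne⟩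
  calc (1 : ℝ) = 1 * 1 := (mul_one 1).symm
    _ ≤ |(discr K : ℝ)| * nm χ.f := mul_le_mul h2 h3 zero_le_one (zero_le_one.trans h2)

/-- the coefficients are bounded -/
theorem aw_coef (χ : RCC K) {s₀ : ℂ} (hs₀ : 1 / 2 ≤ s₀.re) (a : NI K) :
    ‖χ.ψ a.1 * ((nm a.1 : ℝ) : ℂ) ^ (-s₀)‖ ≤ nm a.1 ^ (-(1 / 2) : ℝ) := by
  have h1 := Pool.Agent.H56.CV.nm_pos a
  rw [norm_mul, Complex.norm_cpow_eq_rpow_re_of_pos h1]
  have h2 : nm a.1 ^ (-s₀).re ≤ nm a.1 ^ (-(1 / 2) : ℝ) := by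
    refine Real.rpow_le_rpow_of_exponent_le (aw_nm_one a) ?_
    rw [neg_re]
    linarith
  exact (mul_le_of_le_one_left (Real.rpow_nonneg h1.le _) (rcc_norm_le χ a.1)).trans h2

/-- the sum as an integral over the line `re = 2` -/
theorem A1w_eq (hSH : T_SH) (hZK : T_ZK) (χ : RCC K) {Z : ℂ → ℂ}
    (hZ : IsEnt χ Z) {X : ℝ} (hX : 0 < X) {s₀ : ℂ} (hs₀ : 1 / 2 ≤ s₀.re) :
    A1w X s₀ χ.ψ = ((1 / (2 * Real.pi) : ℝ) : ℂ) * ∫ t : ℝ, Z (s₀ + ((2 : ℝ) + t * I)) *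
      (X : ℂ) ^ (((2 : ℝ) : ℂ) + t * I) * (cexp (((2 : ℝ) + t * I) ^ 2) / ((2 : ℝ) + t * I)) := by
  have hcount : Countable (NI K) := NI_countable hZK
  have hg0 := (hSH (fun _ => 1) (-1) 2 (by norm_num) (fun s _ _ => by fun_prop)
    ⟨1, 0, fun s _ _ => by simp⟩).2.1 (by norm_num) (by norm_num)
  have hg1 : Integrable (fun t : ℝ => cexp (((2 : ℝ) + t * I) ^ 2) / ((2 : ℝ) + t * I)) := by
    simpa using hg0.1
  set g : ℝ → ℂ := fun t => cexp (((2 : ℝ) + t * I) ^ 2) / ((2 : ℝ) + t * I) with hgdef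
  have hs := nm_summable (K := K) hZK (σ := 5 / 2) (by norm_num)
  set c : NI K → ℂ := fun a => χ.ψ a.1 * ((nm a.1 : ℝ) : ℂ) ^ (-s₀) with hc
  have hcs : Summable fun a : NI K => ‖c a‖ * (nm a.1 / X) ^ (-(2 : ℝ)) := by
    refine Summable.of_nonneg_of_le (fun a => mul_nonneg (norm_nonneg _)
      (Real.rpow_nonneg (div_pos (Pool.Agent.H56.CV.nm_pos a) hX).le _)) (fun a => ?_)
      (hs.mul_right (X ^ (2 : ℝ)))
    have h1 := Pool.Agent.H56.CV.nm_pos a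
    have h2 : ‖c a‖ ≤ nm a.1 ^ (-(1 / 2) : ℝ) := aw_coef χ hs₀ a
    have h3 : (nm a.1 / X) ^ (-(2 : ℝ)) = nm a.1 ^ (-(2 : ℝ)) * X ^ (2 : ℝ) := by
      rw [Real.div_rpow h1.le hX.le, Real.rpow_neg hX.le, div_inv_eq_mul]
    rw [h3]
    calc ‖c a‖ * (nm a.1 ^ (-(2 : ℝ)) * X ^ (2 : ℝ))
        ≤ nm a.1 ^ (-(1 / 2) : ℝ) * (nm a.1 ^ (-(2 : ℝ)) * X ^ (2 : ℝ)) :=
          mul_le_mul_of_nonneg_right h2 (by positivity)
      _ = nm a.1 ^ (-(5 / 2) : ℝ) * X ^ (2 : ℝ) := by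
          rw [← mul_assoc, ← Real.rpow_add h1]
          norm_num
  have key := swap c (fun a : NI K => nm a.1 / X)
    (fun a => div_pos (Pool.Agent.H56.CV.nm_pos a) hX) 2 hcs g hg1
  have h1 : A1w X s₀ χ.ψ = ((1 / (2 * Real.pi) : ℝ) : ℂ) *
      ∑' a : NI K, c a * ∫ t : ℝ, g t * ((nm a.1 / X : ℝ) : ℂ) ^ (-(((2 : ℝ) : ℂ) + t * I)) := by
    unfold A1w
    rw [← tsum_mul_left]
    refine tsum_congr fun a => ?_
    unfold wf
    rw [hc, hgdef]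
    push_cast
    ring
  rw [h1, key.tsum_eq]
  congr 1
  refine integral_congr_ae (Eventually.of_forall fun t => ?_)
  have hre : 1 < (s₀ + (((2 : ℝ) : ℂ) + t * I)).re := by
    have h0 : (s₀ + (((2 : ℝ) : ℂ) + t * I)).re = s₀.re + 2 := by simp
    rw [h0]
    linarith
  simp only []
  rw [hZ.2 _ hre]
  have h2 : ∑' a : NI K, c a * ((nm a.1 / X : ℝ) : ℂ) ^ (-(((2 : ℝ) : ℂ) + t * I)) =
      Lc χ (s₀ + (((2 : ℝ) : ℂ) + t * I)) * (X : ℂ) ^ (((2 : ℝ) : ℂ) + t * I) := by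
    unfold Lc
    rw [← tsum_mul_right]
    refine tsum_congr fun a => ?_
    rw [div_cpow' (Pool.Agent.H56.CV.nm_pos a) hX, hc]
    have h0 : ((nm a.1 : ℝ) : ℂ) ≠ 0 := by
      exact_mod_cast (Pool.Agent.H56.CV.nm_pos a).ne'
    have h3 : ((nm a.1 : ℝ) : ℂ) ^ (-s₀) * ((nm a.1 : ℝ) : ℂ) ^ (-(((2 : ℝ) : ℂ) + t * I)) =
        ((nm a.1 : ℝ) : ℂ) ^ (-(s₀ + (((2 : ℝ) : ℂ) + t * I))) := by
      rw [← Complex.cpow_add _ _ h0]
      congr 1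
      ring
    have h4 : ((nm a.1 : ℝ) : ℂ) = (Ideal.absNorm a.1 : ℂ) := by
      unfold nm
      push_cast
      rfl
    simp only []
    rw [h4] at h3 ⊢
    rw [← h3]
    ring
  rw [h2]
  ring

/-- the integrand of the shifted integral satisfies the hypotheses of (SH) -/
theorem F_strw (hHE : T_HEc) (hGW : T_GWc) (χ : RCC K) {Z : ℂ → ℂ} (hZ : IsEnt χ Z) {X : ℝ}
    (hX : 0 < X) (s₀ : ℂ) (A : ℝ) :
    (∀ s : ℂ, -A ≤ s.re → s.re ≤ 2 →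
      DifferentiableAt ℂ (fun s => Z (s₀ + s) * (X : ℂ) ^ s) s) ∧
    ∃ C B : ℝ, ∀ s : ℂ, -A ≤ s.re → s.re ≤ 2 →
      ‖Z (s₀ + s) * (X : ℂ) ^ s‖ ≤ C * (1 + |s.im|) ^ B := by
  refine ⟨fun s _ _ => ?_, ?_⟩
  · have h1 : DifferentiableAt ℂ (fun s : ℂ => Z (s₀ + s)) s :=
      (hZ.1 (s₀ + s)).comp s (by fun_prop)
    refine h1.mul ?_
    exact differentiableAt_id.const_cpow (Or.inl (by exact_mod_cast hX.ne'))
  · obtain ⟨C, B, hC⟩ := poly_bd hHE hGW χ hZ (|s₀.re| + |A| + 3)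
    refine ⟨|C| * (1 + |s₀.im|) ^ |B| * Real.exp (|Real.log X| * (|A| + 2)), |B|,
      fun s h1 h2 => ?_⟩
    have hA1 := le_abs_self A
    have hA0 := abs_nonneg A
    have h3 : |(s₀ + s).re| ≤ |s₀.re| + |A| + 3 := by
      rw [add_re]
      refine (abs_add_le _ _).trans ?_
      have : |s.re| ≤ |A| + 2 := abs_le.2 ⟨by linarith, by linarith⟩
      linarith
    have h4 := hC _ h3
    have hs0 := abs_nonneg s₀.im
    have hs1 := abs_nonneg s.im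
    have h5 : (1 + |(s₀ + s).im|) ^ B ≤ (1 + |s₀.im|) ^ |B| * (1 + |s.im|) ^ |B| := by
      have e1 : (1 : ℝ) ≤ 1 + |(s₀ + s).im| := by linarith [abs_nonneg (s₀ + s).im]
      have e2 : 1 + |(s₀ + s).im| ≤ (1 + |s₀.im|) * (1 + |s.im|) := by
        have e3 : |(s₀ + s).im| ≤ |s₀.im| + |s.im| := by
          rw [add_im]
          exact abs_add_le _ _
        nlinarith [mul_nonneg hs0 hs1]
      refine (Real.rpow_le_rpow_of_exponent_le e1 (le_abs_self B)).trans ?_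
      rw [← Real.mul_rpow (by linarith) (by linarith)]
      exact Real.rpow_le_rpow (by linarith) e2 (abs_nonneg B)
    have h6 : ‖(X : ℂ) ^ s‖ ≤ Real.exp (|Real.log X| * (|A| + 2)) := by
      rw [Complex.norm_cpow_eq_rpow_re_of_pos hX, Real.rpow_def_of_pos hX]
      refine Real.exp_le_exp.2 ((le_abs_self _).trans ?_)
      rw [abs_mul]
      refine mul_le_mul_of_nonneg_left ?_ (abs_nonneg _)
      rw [abs_le]
      constructor <;> linarith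
    have h7 : 0 ≤ (1 + |(s₀ + s).im|) ^ B :=
      Real.rpow_nonneg (by linarith [abs_nonneg (s₀ + s).im]) _
    have h8 : 0 ≤ (1 + |s₀.im|) ^ |B| * (1 + |s.im|) ^ |B| := h7.trans h5
    rw [norm_mul]
    calc ‖Z (s₀ + s)‖ * ‖(X : ℂ) ^ s‖
        ≤ (|C| * ((1 + |s₀.im|) ^ |B| * (1 + |s.im|) ^ |B|)) *
            Real.exp (|Real.log X| * (|A| + 2)) :=
          mul_le_mul (h4.trans (mul_le_mul (le_abs_self C) h5 h7 (abs_nonneg C))) h6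
            (norm_nonneg _) (mul_nonneg (abs_nonneg C) h8)
      _ = _ := by ring

/-- the shifted integral -/
theorem aw_main [IsTotallyComplex K] (A : ℕ) (T : ℝ) (hA : 1 ≤ A) (hT : 0 < T) :
    ∃ C₁ : ℝ, 0 ≤ C₁ ∧ ∀ χ : RCC K, χ.f ≠ ⊤ → ∀ Z : ℂ → ℂ, IsEnt χ Z → ∀ X γ t : ℝ, 0 < X →
      0 ≤ γ → γ ≤ 1 / 8 → |t| ≤ T →
      ‖Z (1 / 2 + γ + t * I) - A1w X (1 / 2 + γ + t * I) χ.ψ‖ ≤
        C₁ * (cnd K χ.f ^ A * X ^ (-(A + γ) : ℝ)) := by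
  have hSH := a_SH
  have hZK := a_ZK
  have hEN := a_EN
  obtain ⟨C, hC⟩ := a_GB.2 A
  set r := nrComplexPlaces K with hr
  set S := ∑' I : NI K, nm I.1 ^ (-(1 / 2 + A : ℝ)) with hS
  have hA' : (1 : ℝ) ≤ A := by exact_mod_cast hA
  have hCr : 0 ≤ C := by
    obtain ⟨h1, h2⟩ := hC 0
    by_contra h
    push Not at h
    have h3 : C * (1 + |(0 : ℝ)|) ^ (2 * A) * ‖Gammaℂ (1 / 2 - A + (0 : ℝ) * I)‖ < 0 := by
      refine mul_neg_of_neg_of_pos (mul_neg_of_neg_of_pos h (by positivity)) (norm_pos_iff.2 h1)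
    have h4 := norm_nonneg (Gammaℂ (1 / 2 + A - (0 : ℝ) * I))
    linarith
  have hS0 : 0 ≤ S := tsum_nonneg fun I =>
    Real.rpow_nonneg (Pool.Agent.H56.CV.nm_pos I).le _
  have hint := Pool.Agent.Ratios.integrable_exp_neg_mul_abs 1 one_pos
  obtain ⟨B, hB⟩ : ∃ B : ℝ, B = C ^ r * (1 + T) ^ (2 * A * r) * S *
      Real.exp (((A : ℝ) + 1) ^ 2 + (((2 * A * r : ℕ) : ℝ) + 1) ^ 2) := ⟨_, rfl⟩
  have hB0 : 0 ≤ B := by rw [hB]; positivity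
  have hI0 : 0 ≤ ∫ t : ℝ, Real.exp (-(1 * |t|)) :=
    integral_nonneg fun t => (Real.exp_pos _).le
  refine ⟨1 / (2 * Real.pi) * (B * ∫ t : ℝ, Real.exp (-(1 * |t|))), by positivity, ?_⟩
  intro χ hf Z hZ X γ t hX hγ hγ8 ht
  have hD := cnd_pos χ
  set D := cnd K χ.f with hDdef
  obtain ⟨s₀, hs₀⟩ : ∃ s₀ : ℂ, s₀ = 1 / 2 + γ + t * I := ⟨_, rfl⟩
  have hs₀re : s₀.re = 1 / 2 + γ := by
    rw [hs₀]
    simp
  rw [← hs₀]
  obtain ⟨hd, hb⟩ := F_strw T_HEc_proved c_GW χ hZ hX s₀ (A + γ)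
  have hsh := (hSH (fun s => Z (s₀ + s) * (X : ℂ) ^ s) (-(A + γ)) 2 (by linarith) hd hb).2.1
    (by linarith) (by norm_num)
  obtain ⟨-, -, h3⟩ := hsh
  have hA1 := A1w_eq hSH hZK χ hZ hX (s₀ := s₀) (by rw [hs₀re]; linarith)
  simp only [add_zero, cpow_zero, mul_one] at h3
  set J₁ : ℂ := ∫ t : ℝ, Z (s₀ + (((2 : ℝ) : ℂ) + t * I)) *
      (X : ℂ) ^ (((2 : ℝ) : ℂ) + t * I) * (cexp ((((2 : ℝ) : ℂ) + t * I) ^ 2) /
        (((2 : ℝ) : ℂ) + t * I)) with hJ₁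
  set J₂ : ℂ := ∫ t : ℝ, Z (s₀ + (((-(A + γ) : ℝ) : ℂ) + t * I)) *
      (X : ℂ) ^ (((-(A + γ) : ℝ) : ℂ) + t * I) * (cexp ((((-(A + γ) : ℝ) : ℂ) + t * I) ^ 2) /
        (((-(A + γ) : ℝ) : ℂ) + t * I)) with hJ₂
  have hpi : (Real.pi : ℂ) ≠ 0 := ofReal_ne_zero.mpr Real.pi_pos.ne'
  have hdiff : Z s₀ - A1w X s₀ χ.ψ = -(((1 / (2 * Real.pi) : ℝ) : ℂ) * J₂) := by
    rw [hA1]
    have h4 : Z s₀ = ((1 / (2 * Real.pi) : ℝ) : ℂ) * (J₁ - J₂) := by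
      rw [h3]
      push_cast
      field_simp
    rw [h4]
    ring
  have hXg : 0 < X ^ (-(A + γ) : ℝ) := Real.rpow_pos_of_pos hX _
  have hJb : ‖J₂‖ ≤ ∫ v : ℝ, (B * (D ^ A * X ^ (-(A + γ) : ℝ))) * Real.exp (-(1 * |v|)) := by
    refine norm_integral_le_of_norm_le (hint.const_mul _) (Eventually.of_forall fun v => ?_)
    have h5 := left_bd hEN hZK A hA hC χ hf hZ (t + v)
    have h6 : (s₀ + (((-(A + γ) : ℝ) : ℂ) + v * I)) = 1 / 2 - A + ((t + v : ℝ) : ℂ) * I := by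
      rw [hs₀]
      push_cast
      ring
    have h7 : (((-(A + γ) : ℝ) : ℂ) + v * I) = (-((A + γ : ℝ) : ℂ) + v * I : ℂ) := by
      push_cast
      ring
    have h8 : ‖(X : ℂ) ^ (((-(A + γ) : ℝ) : ℂ) + v * I)‖ = X ^ (-(A + γ) : ℝ) := by
      rw [Complex.norm_cpow_eq_rpow_re_of_pos hX]
      congr 1
      simp
    have h9 : 1 ≤ ‖((-(A + γ) : ℝ) : ℂ) + v * I‖ := by
      have h10 : (1 : ℝ) ≤ A + γ := by linarith
      refine h10.trans ?_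
      have := Complex.abs_re_le_norm (((-(A + γ) : ℝ) : ℂ) + v * I)
      have h11 : (((-(A + γ) : ℝ) : ℂ) + v * I).re = -(A + γ) := by simp
      rw [h11, abs_neg, abs_of_nonneg (by linarith)] at this
      exact this
    have h10 := gauss_bd (2 * A * r) (A + γ) v
    rw [norm_mul, norm_mul, norm_div, h6, h8]
    rw [h7] at h9 ⊢
    set G := ‖cexp ((-((A + γ : ℝ) : ℂ) + v * I : ℂ) ^ 2)‖ with hG
    have hG0 : 0 ≤ G := norm_nonneg _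
    have h11 : G / ‖(-((A + γ : ℝ) : ℂ) + v * I : ℂ)‖ ≤ G := div_le_self hG0 h9
    have hv : 0 ≤ |v| := abs_nonneg v
    have h12 : (1 + |t + v|) ^ (2 * A) ≤ ((1 + T) * (1 + |v|)) ^ (2 * A) := by
      refine pow_le_pow_left₀ (by positivity) ?_ _
      have := abs_add_le t v
      nlinarith [mul_nonneg hT.le hv]
    have h13 : (C * (1 + |t + v|) ^ (2 * A)) ^ r ≤
        (C * ((1 + T) * (1 + |v|)) ^ (2 * A)) ^ r :=
      pow_le_pow_left₀ (by positivity) (mul_le_mul_of_nonneg_left h12 hCr) _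
    have h14 : Real.exp (((A : ℝ) + γ) ^ 2 + (((2 * A * r : ℕ) : ℝ) + 1) ^ 2) ≤
        Real.exp (((A : ℝ) + 1) ^ 2 + (((2 * A * r : ℕ) : ℝ) + 1) ^ 2) := by
      refine Real.exp_le_exp.2 ?_
      have : ((A : ℝ) + γ) ^ 2 ≤ ((A : ℝ) + 1) ^ 2 :=
        pow_le_pow_left₀ (by linarith) (by linarith) 2
      linarith
    have h15 : (1 + |v|) ^ (2 * A * r) * G ≤
        Real.exp (((A : ℝ) + 1) ^ 2 + (((2 * A * r : ℕ) : ℝ) + 1) ^ 2) *
          Real.exp (-(1 * |v|)) :=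
      h10.trans (mul_le_mul_of_nonneg_right h14 (Real.exp_pos _).le)
    have hDA : 0 ≤ D ^ A := (pow_pos hD A).le
    calc ‖Z (1 / 2 - A + ((t + v : ℝ) : ℂ) * I)‖ * X ^ (-(A + γ) : ℝ) *
          (G / ‖(-((A + γ : ℝ) : ℂ) + v * I : ℂ)‖)
        ≤ (D ^ A * (C * ((1 + T) * (1 + |v|)) ^ (2 * A)) ^ r * S) *
            X ^ (-(A + γ) : ℝ) * G := by
          refine mul_le_mul (mul_le_mul_of_nonneg_right (h5.trans ?_) hXg.le) h11
            (by positivity) (by positivity)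
          exact mul_le_mul_of_nonneg_right (mul_le_mul_of_nonneg_left h13 hDA) hS0
      _ = C ^ r * (1 + T) ^ (2 * A * r) * S * (D ^ A * X ^ (-(A + γ) : ℝ)) *
            ((1 + |v|) ^ (2 * A * r) * G) := by
          rw [mul_pow, mul_pow, mul_pow, ← pow_mul, ← pow_mul]
          ring
      _ ≤ C ^ r * (1 + T) ^ (2 * A * r) * S * (D ^ A * X ^ (-(A + γ) : ℝ)) *
            (Real.exp (((A : ℝ) + 1) ^ 2 + (((2 * A * r : ℕ) : ℝ) + 1) ^ 2) *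
              Real.exp (-(1 * |v|))) := mul_le_mul_of_nonneg_left h15 (by positivity)
      _ = _ := by
          rw [hB]
          ring
  rw [hdiff, norm_neg, norm_mul, Complex.norm_real, Real.norm_of_nonneg (by positivity)]
  rw [integral_const_mul] at hJb
  calc 1 / (2 * Real.pi) * ‖J₂‖
      ≤ 1 / (2 * Real.pi) * (B * (D ^ A * X ^ (-(A + γ) : ℝ)) *
          ∫ t : ℝ, Real.exp (-(1 * |t|))) :=
        mul_le_mul_of_nonneg_left hJb (by positivity)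
    _ = _ := by ring

/-- the sum for a small `X` -/
theorem aw_small : ∃ C₂ : ℝ, 0 ≤ C₂ ∧ ∀ (χ : RCC K) (s₀ : ℂ) (X : ℝ), 1 / 2 ≤ s₀.re → 0 < X →
    X ≤ 1 → ‖A1w X s₀ χ.ψ‖ ≤ C₂ := by
  obtain ⟨C, hC⟩ := a_WV.1 2
  have hs := nm_summable (K := K) a_ZK (σ := 5 / 2) (by norm_num)
  have hC0 : 0 ≤ C := by
    have h1 := (hC 1 one_pos).1
    have h2 : 0 ≤ ‖wf 1‖ * (1 : ℝ) ^ 2 := by positivity
    linarith
  refine ⟨∑' a : NI K, nm a.1 ^ (-(5 / 2) : ℝ) * C, tsum_nonneg fun a =>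
    mul_nonneg (Real.rpow_nonneg (Pool.Agent.H56.CV.nm_pos a).le _) hC0,
    fun χ s₀ X hs₀ hX hX1 => ?_⟩
  unfold A1w
  refine tsum_of_norm_bounded (hs.mul_right C).hasSum fun a => ?_
  have h1 := Pool.Agent.H56.CV.nm_pos a
  have h2 := (hC (nm a.1 / X) (div_pos h1 hX)).1
  rw [norm_mul]
  have h3 : ‖wf (nm a.1 / X)‖ ≤ C * nm a.1 ^ (-(2 : ℝ)) := by
    have h4 : ‖wf (nm a.1 / X)‖ * nm a.1 ^ 2 ≤ C := by
      refine le_trans (mul_le_mul_of_nonneg_left ?_ (norm_nonneg _)) h2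
      refine pow_le_pow_left₀ h1.le ?_ 2
      rw [le_div_iff₀ hX]
      exact mul_le_of_le_one_right h1.le hX1
    have h5 : nm a.1 ^ (-(2 : ℝ)) = (nm a.1 ^ 2)⁻¹ := by
      rw [Real.rpow_neg h1.le]
      norm_num
    rw [h5, ← div_eq_mul_inv, le_div_iff₀ (by positivity)]
    exact h4
  calc ‖χ.ψ a.1 * ((nm a.1 : ℝ) : ℂ) ^ (-s₀)‖ * ‖wf (nm a.1 / X)‖
      ≤ nm a.1 ^ (-(1 / 2) : ℝ) * (C * nm a.1 ^ (-(2 : ℝ))) :=
        mul_le_mul (aw_coef χ hs₀ a) h3 (norm_nonneg _) (Real.rpow_nonneg h1.le _)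
    _ = nm a.1 ^ (-(1 / 2) : ℝ) * nm a.1 ^ (-(2 : ℝ)) * C := by ring
    _ = nm a.1 ^ (-(5 / 2) : ℝ) * C := by
        rw [← Real.rpow_add h1]
        norm_num

end

theorem pf_AF1w : T_AF1w := by
  intro K _ _ _ A T hA hT
  obtain ⟨C₁, hC₁, h1⟩ := aw_main (K := K) A T hA hT
  obtain ⟨C₂, hC₂, h2⟩ := aw_small (K := K)
  refine ⟨C₁ + 2 * C₂, fun χ hf Z hZ X γ t hX hγ hγ8 ht => ?_⟩
  have hD := aw_cnd_one χ
  set D := cnd K χ.f with hDdef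
  have hs₀ : (1 / 2 : ℝ) ≤ (1 / 2 + γ + t * I : ℂ).re := by
    have : (1 / 2 + γ + t * I : ℂ).re = 1 / 2 + γ := by simp
    rw [this]
    linarith
  have hDX : (D / X) ^ A = D ^ A * X ^ (-(A : ℝ)) := by
    rw [div_pow, Real.rpow_neg hX.le, Real.rpow_natCast, div_eq_mul_inv]
  have hDA1 : 1 ≤ D ^ A := one_le_pow₀ hD
  rcases le_or_gt 1 X with hX1 | hX1
  · have h3 := h1 χ hf Z hZ X γ t hX hγ hγ8 ht
    have h4 : X ^ (-(A + γ) : ℝ) ≤ X ^ (-(A : ℝ)) :=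
      Real.rpow_le_rpow_of_exponent_le hX1 (by linarith)
    have h5 : 0 ≤ X ^ (-(A : ℝ)) := Real.rpow_nonneg hX.le _
    have h6 : 0 ≤ D ^ A * X ^ (-(A : ℝ)) := mul_nonneg (by linarith) h5
    rw [hDX]
    calc ‖Z (1 / 2 + γ + t * I) - A1w X (1 / 2 + γ + t * I) χ.ψ‖
        ≤ C₁ * (D ^ A * X ^ (-(A + γ) : ℝ)) := h3
      _ ≤ C₁ * (D ^ A * X ^ (-(A : ℝ))) :=
          mul_le_mul_of_nonneg_left (mul_le_mul_of_nonneg_left h4 (by linarith)) hC₁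
      _ ≤ (C₁ + 2 * C₂) * (D ^ A * X ^ (-(A : ℝ))) :=
          mul_le_mul_of_nonneg_right (by linarith) h6
  · have h3 := h1 χ hf Z hZ 1 γ t one_pos hγ hγ8 ht
    rw [Real.one_rpow, mul_one] at h3
    have h4 := h2 χ _ 1 hs₀ one_pos le_rfl
    have h5 := h2 χ _ X hs₀ hX hX1.le
    have h6 : 1 ≤ X ^ (-(A : ℝ)) :=
      Real.one_le_rpow_of_pos_of_le_one_of_nonpos hX hX1.le (by
        have : (0 : ℝ) ≤ A := Nat.cast_nonneg A
        linarith)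
    have h7 : D ^ A ≤ (D / X) ^ A := by
      rw [hDX]
      exact le_mul_of_one_le_right (by linarith) h6
    have h8 : Z (1 / 2 + γ + t * I) - A1w X (1 / 2 + γ + t * I) χ.ψ =
        (Z (1 / 2 + γ + t * I) - A1w 1 (1 / 2 + γ + t * I) χ.ψ) +
          A1w 1 (1 / 2 + γ + t * I) χ.ψ - A1w X (1 / 2 + γ + t * I) χ.ψ := by ring
    rw [h8]
    refine (norm_sub_le _ _).trans ?_
    have h9 := norm_add_le (Z (1 / 2 + γ + t * I) - A1w 1 (1 / 2 + γ + t * I) χ.ψ)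
      (A1w 1 (1 / 2 + γ + t * I) χ.ψ)
    have h10 : C₁ * D ^ A ≤ C₁ * (D / X) ^ A := mul_le_mul_of_nonneg_left h7 hC₁
    have h11 : C₂ ≤ C₂ * (D / X) ^ A := le_mul_of_one_le_right hC₂ (hDA1.trans h7)
    linarith

end Pool.Agent.H49.SM
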