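import Pool.Agent.H20.SM.TZ
import Pool.Agent.H65.CRG.FH
import Pool.Agent.H75.CRG.QL
import Pool.Agent.H54.CRG.QI
import Pool.Agent.H34.CRG.CN

/-!
# Row FHz: the proportion of the simple zeros on the critical line
-/

set_option autoImplicit false

open NumberField NumberField.InfinitePlace Complex Filter Topology MeasureTheory Set

namespace Pool.Agent.H49.SM

open Pool.Agent.H20.SM Pool.Agent.H28.RC Pool.Agent.H25.HK Pool.Agent.H37.CV Pool.Agent.H65.CRZ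
  Pool.Agent.H65.CRG

theorem fh_ne {f : ℂ → ℂ} {T : ℝ} (hT : 0 < T) (hfin : {ρ : ℂ | ρ ∈ St T ∧ f ρ = 0}.Finite) :
    ∃ z₀ : ℂ, f z₀ ≠ 0 := by
  by_contra hcon
  push Not at hcon
  have h1 : Function.Injective (fun n : ℕ => (n : ℂ) + ((T / 2 : ℝ) : ℂ) * I) := by
    intro a b hab
    have h2 := congrArg Complex.re hab
    simp at h2
    exact h2
  have h2 : (Set.range (fun n : ℕ => (n : ℂ) + ((T / 2 : ℝ) : ℂ) * I)).Infinite :=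
    Set.infinite_range_of_injective h1
  apply h2
  refine hfin.subset ?_
  rintro _ ⟨n, rfl⟩
  refine ⟨?_, hcon _⟩
  show 0 < (_ : ℂ).im ∧ (_ : ℂ).im < T
  constructor <;> simp <;> linarith

theorem pf_FHz (hFM : T_FMz) (hFZ : T_FZz) : T_FHz := by
  intro F _ _ _ _
  have hQL := Pool.Agent.H75.CRG.pf_QL Pool.Agent.H54.CRG.pf_QI
  obtain ⟨hcn, _, _⟩ := Pool.Agent.H34.CRG.pf_CN
  have hcQ : cQ 1 (fun _ => (26 / 25 : ℝ) / (1 - 26 / 25 / 2)) (5 / 4)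
      ((1 - 2 * (1 / 1000)) / 2) = cc (5 / 4) (26 / 25) (499 / 1000) := by
    have h1 : ((1 - 2 * (1 / 1000)) / 2 : ℝ) = 499 / 1000 := by norm_num
    rw [h1]
    exact hQL (5 / 4) (26 / 25) (499 / 1000) (by norm_num) (by norm_num) (by norm_num)
      (by norm_num)
  obtain ⟨A₀, hFM⟩ := hFM F
  refine ⟨A₀, fun A hA => ?_⟩
  obtain ⟨T₁, hT₁, hFM⟩ := hFM A 1 (fun _ => (26 / 25 : ℝ) / (1 - 26 / 25 / 2)) (5 / 4) (1 / 1000)
    hA (pm_lin (by norm_num) (by norm_num)) (by norm_num) (by norm_num) (by norm_num)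
    (1 - Real.log (cc (5 / 4) (26 / 25) (499 / 1000)) / (5 / 4) - 345 / 1000) (by linarith)
  obtain ⟨T₂, hT₂, hFZ⟩ := hFZ F A 1 one_pos
  refine ⟨max T₁ T₂, lt_of_lt_of_le hT₁ (le_max_left _ _), fun T hT => ?_⟩
  have hT0 : 0 < T := lt_of_lt_of_le (lt_of_lt_of_le hT₁ (le_max_left _ _)) hT
  obtain ⟨x₁, hFM⟩ := hFM T ((le_max_left _ _).trans hT)
  obtain ⟨x₂, hFZ⟩ := hFZ T ((le_max_right _ _).trans hT)
  refine ⟨max x₁ x₂, fun x q hx hq => ?_⟩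
  obtain ⟨_, hFM⟩ := hFM x q ((le_max_left _ _).trans hx) hq
  obtain ⟨hPf, _, hFZ⟩ := hFZ x q ((le_max_right _ _).trans hx) hq
  have hfin : ∀ χ ∈ Pr F (qi F q), (LZ (Zx χ) T).Finite ∧ (SZ (Zx χ) 0 T).Finite := fun χ hχ =>
    ⟨(hFZ χ hχ).2.1.subset (LZ_sub _ _), ((hFZ χ hχ).2.1.subset (LZ_sub _ _)).subset (SZ_sub _ _)⟩
  refine ⟨fun χ hχ => ⟨(hfin χ hχ).2, ?_⟩, ?_⟩
  · obtain ⟨z₀, hz₀⟩ := fh_ne hT0 (hFZ χ hχ).2.1
    refine le_trans ?_ (lz_le_zc (z₀ := z₀) (hFZ χ hχ).1.1 hz₀ (hFZ χ hχ).2.1)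
    exact_mod_cast Set.ncard_le_ncard (SZ_sub _ _) (hfin χ hχ).1
  · have h1 : 1 - Real.log (cQ 1 (fun _ => (26 / 25 : ℝ) / (1 - 26 / 25 / 2)) (5 / 4)
        ((1 - 2 * (1 / 1000)) / 2)) / (5 / 4) -
        (1 - Real.log (cc (5 / 4) (26 / 25) (499 / 1000)) / (5 / 4) - 345 / 1000) =
        345 / 1000 := by
      rw [hcQ]
      ring
    rw [h1] at hFM
    refine hFM.trans (fsum_mono hPf fun χ hχ => ?_)
    exact_mod_cast Set.ncard_le_ncard (CZ_sub_SZ _ _ _ _ _) (hfin χ hχ).2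

end Pool.Agent.H49.SM
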