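import Pool.Agent.H20.SM.TZ
import Pool.Agent.H19.CRG.TFa
import Pool.Agent.H37.CA.Base
import Pool.Agent.H37.CV.All

/-!
# Row TFz: from the ray class characters to the irreducible characters, special moduli
-/

set_option autoImplicit false

open NumberField NumberField.InfinitePlace Complex Filter Topology

namespace Pool.Agent.H49.SM

open Pool.Agent.H28.RC Pool.Agent.H25 Pool.Agent.H25.HK Pool.Agent.H37.CV Pool.Agent.H37.CA
  Pool.Agent.H20.SM Pool.Agent.H19.CRG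
open Pool.Agent.H65.CRZ (Zx)

theorem qi_ne_top2 (K : Type) [Field K] [NumberField K] (q : ℕ) (hq : 2 ≤ q) :
    qi K q ≠ ⊤ := by
  intro h
  rw [qi, Ideal.span_singleton_eq_top] at h
  have h4 : IsUnit ((Ideal.absNorm (Ideal.span {(q : 𝓞 K)})) : ℕ) := by
    rw [Ideal.span_singleton_eq_top.2 h, Ideal.absNorm_top]
    exact isUnit_one
  have h5 : Ideal.absNorm (Ideal.span {(q : 𝓞 K)}) = q ^ Module.finrank ℚ K := by
    have := Ideal.absNorm_span_natCast (S := 𝓞 K) q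
    rw [this, RingOfIntegers.rank]
  rw [h5, Nat.isUnit_iff] at h4
  have h6 : 1 < q ^ Module.finrank ℚ K := Nat.one_lt_pow (by
    have : 0 < Module.finrank ℚ K := Module.finrank_pos
    omega) (by omega)
  omega

theorem qi_ne_bot2 (K : Type) [Field K] [NumberField K] (q : ℕ) (hq : 2 ≤ q) :
    qi K q ≠ ⊥ := by
  rw [qi, Ne, Ideal.span_singleton_eq_bot]
  have : q ≠ 0 := by omega
  exact_mod_cast this

/-- special moduli are at least `2` -/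
theorem two_le_Sp {F : Type} [Field F] [NumberField F] {A : ℕ} {x : ℝ} {q : ℕ} (hx : 2 ≤ x)
    (hq : Sp F A x q) : 2 ≤ q := by
  have h1 : 0 < Real.log x := Real.log_pos (by linarith)
  have h2 : (0 : ℝ) < q.primeFactors.card := lt_of_lt_of_le (pow_pos h1 A) hq.lo
  have h3 : 0 < q.primeFactors.card := by exact_mod_cast h2
  obtain ⟨p, hp⟩ := Finset.card_pos.1 h3
  have h4 := Nat.prime_of_mem_primeFactors hp
  exact h4.two_le.trans (Nat.le_of_mem_primeFactors hp)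

open scoped Classical in
theorem pf_TFz (hCNT : T_CNTq) (hPNC : Pool.Agent.H20.SM.T_PNC) (hNCR : T_NCR)
    (hIE : T_IEq) : T_TFz := by
  have hEN := a_EN
  have hFSI := a_FSI
  have hGCT := a_GCT
  have hIIR := a_IIR
  have hFIB := a_FIB
  have hGRF := a_GRF
  have hCOM := a_COM
  have hCOR := a_COR
  have hALF := a_ALF
  have hOR := a_OR
  intro F _ _ _ _ A ε hA hε
  obtain ⟨d, hd⟩ : ∃ d : ℕ, d = Module.finrank ℚ F := ⟨_, rfl⟩
  have hd0 : 0 < d := by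
    rw [hd]
    exact Module.finrank_pos
  have hd2 : (0 : ℝ) < d := by exact_mod_cast hd0
  obtain ⟨t, ht0, ht1, hta, htb, htc⟩ := choice_t d ε hε
  obtain ⟨x₂, hx2⟩ := hPNC F A t ht0
  obtain ⟨x₃, hx3⟩ := hCNT F A t hA ht0
  refine ⟨max x₂ (max x₃ 2), fun x q hxx hSp L _ _ _ _ hL => ?_⟩
  have hxb : x₂ ≤ x := (le_max_left _ _).trans hxx
  have hxc : x₃ ≤ x := ((le_max_left _ _).trans (le_max_right _ _)).trans hxx
  have hxd : 2 ≤ x := ((le_max_right _ _).trans (le_max_right _ _)).trans hxx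
  have hq : 2 ≤ q := two_le_Sp hxd hSp
  have hm : qi F q ≠ ⊥ := qi_ne_bot2 F q hq
  have hmt : qi F q ≠ ⊤ := qi_ne_top2 F q hq
  obtain ⟨β, hβ⟩ := hCOR F L (qi F q) hm hmt hL
  obtain ⟨hnorm, hidx, hlift, hres, -⟩ := hGRF F L
  have := hnorm
  rw [← hd] at hidx
  have hcom := hCOM F L (qi F q) hL
  obtain ⟨hc1, hc3, hc2⟩ := hx3 x q hxc hSp L β hβ
  have hb := (hx2 x q hxb hSp).1
  have hChf := (hOR F (qi F q) (qi F q) hm le_rfl).1
  have hNpos' := (hOR F (qi F q) (qi F q) hm le_rfl).2.1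
  obtain ⟨N, hN⟩ : ∃ N : ℝ, N = (nc (qi F q) (qi F q) : ℝ) := ⟨_, rfl⟩
  rw [← hN] at hc1 hc2 hc3 hb
  have hNpos : 0 < N := by
    rw [hN]
    exact_mod_cast hNpos'
  obtain ⟨hIf, hIc⟩ := hGCT (L ≃ₐ[ℚ] L) (HF F L) hcom
  rw [hidx] at hIc
  have hfinhom : Finite (HF F L →* ℂˣ) := by
    have : (Set.univ : Set (HF F L →* ℂˣ)).Finite := by
      rw [← hβ.1.image_eq]
      exact hChf.image β
    exact Set.finite_univ_iff.1 this
  have hbij := bij_Pr hm hmt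
  have hPf : (Pr F (qi F q)).Finite := by
    have h1 : ((fun χ : RCC F => χ.ψ) '' (Pr F (qi F q))).Finite := by
      refine hChf.subset ?_
      rintro _ ⟨χ, hχ, rfl⟩
      exact (hbij.mapsTo hχ).1
    exact Set.Finite.of_finite_image h1 hbij.injOn
  have hinj : Set.InjOn (fun χ : RCC F => β χ.ψ) (Pr F (qi F q)) := by
    intro χ hχ χ' hχ' h
    refine hbij.injOn hχ hχ' ?_
    exact hβ.1.injOn (hbij.mapsTo hχ).1 (hbij.mapsTo hχ').1 h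
  obtain ⟨S, hS⟩ : ∃ S : Set (RCC F), S = {χ | χ ∈ Pr F (qi F q) ∧ β χ.ψ ∈ Gen (HF F L) ∧
    β χ.ψ ∈ Nsd (HF F L)} := ⟨_, rfl⟩
  have hSm : ∀ χ, χ ∈ S → χ ∈ Pr F (qi F q) ∧ β χ.ψ ∈ Gen (HF F L) ∧
      β χ.ψ ∈ Nsd (HF F L) := by
    intro χ hχ
    rw [hS] at hχ
    exact hχ
  have hSP : S ⊆ Pr F (qi F q) := fun χ hχ => (hSm χ hχ).1
  have hdiff : ((Pr F (qi F q) \ S).ncard : ℝ) ≤ 2 * t * N := by
    rw [← (hinj.mono Set.sdiff_subset).ncard_image]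
    have h1 : (fun χ : RCC F => β χ.ψ) '' (Pr F (qi F q) \ S) ⊆
        (Gen (HF F L))ᶜ ∪ (Nsd (HF F L))ᶜ := by
      rintro _ ⟨χ, ⟨hχ1, hχ2⟩, rfl⟩
      by_cases h2 : β χ.ψ ∈ Gen (HF F L)
      · refine Or.inr fun h3 => hχ2 ?_
        rw [hS]
        exact ⟨hχ1, h2, h3⟩
      · exact Or.inl h2
    have h2 := (Set.ncard_le_ncard h1 (Set.toFinite _)).trans (Set.ncard_union_le _ _)
    have h3 : (((fun χ : RCC F => β χ.ψ) '' (Pr F (qi F q) \ S)).ncard : ℝ) ≤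
        ((Gen (HF F L))ᶜ.ncard : ℝ) + ((Nsd (HF F L))ᶜ.ncard : ℝ) := by exact_mod_cast h2
    linarith
  have hScard : ((Pr F (qi F q)).ncard : ℝ) = (Pr F (qi F q) \ S).ncard + S.ncard := by
    have := Set.ncard_sdiff_add_ncard_of_subset hSP hPf
    rw [← this]
    push_cast
    ring
  -- the induced characters
  obtain ⟨I, hI⟩ : ∃ I : RCC F → ((L ≃ₐ[ℚ] L) → ℂ), ∀ χ, I χ = indc (HF F L) (β χ.ψ) :=
    ⟨fun χ => indc (HF F L) (β χ.ψ), fun _ => rfl⟩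
  have hIrr : ∀ χ ∈ S, I χ ∈ Irr (L ≃ₐ[ℚ] L) ∧ I χ 1 = (d : ℂ) ∧ nu (I χ) = 0 := by
    intro χ hχ
    obtain ⟨-, hgen, hnsd⟩ := hSm χ hχ
    obtain ⟨h1, h2⟩ := hIIR (L ≃ₐ[ℚ] L) (HF F L) hcom (β χ.ψ) hgen
    rw [hI χ]
    refine ⟨h1, ?_, hFSI (L ≃ₐ[ℚ] L) (HF F L) hcom (β χ.ψ) hnsd⟩
    rw [h2, hidx]
  have hEnt : ∀ χ ∈ Pr F (qi F q), IsEnt χ (Zx χ) := by
    intro χ hχ
    refine Zx_ent hEN χ ?_
    have h1 : χ.f = qi F q := hχ
    rw [h1]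
    exact hmt
  have hAL : ∀ χ ∈ S, ∀ (D : Frb L) (V : Type) [AddCommGroup V] [Module ℂ V]
      [FiniteDimensional ℂ V] (ρ : Representation ℂ (L ≃ₐ[ℚ] L) V), I χ = ρ.character →
      ∀ s : ℂ, 1 < s.re → HasProd (fun p => (D.rep V ρ).euler p s) (Lc χ s) := by
    intro χ hχ D V _ _ _ ρ hρ s hs
    rw [hI χ] at hρ
    refine hALF F L (qi F q) χ (β χ.ψ) hm ?_ D V ρ (fun g => (congrFun hρ g).symm) s hs
    intro P g h hP hg hh
    exact hβ.2 χ.ψ (hbij.mapsTo (hSP hχ)).1 P g h hP hg hh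
  have hkey : ∀ χ ∈ S, ∀ χ' ∈ S, I χ = I χ' → Zx χ = Zx χ' := by
    intro χ hχ χ' hχ' h
    obtain ⟨D⟩ := nonempty_Frb L
    obtain ⟨V, hV1, hV2, hV3, ρ, hρ, hρ'⟩ := (hIrr χ hχ).1
    refine Zx_eq (hEnt χ (hSP hχ)) (hEnt χ' (hSP hχ')) fun s hs => ?_
    exact (hAL χ hχ D V ρ hρ' s hs).unique (hAL χ' hχ' D V ρ (h.symm.trans hρ') s hs)
  obtain ⟨Λ, hΛ⟩ : ∃ Λ : ((L ≃ₐ[ℚ] L) → ℂ) → ℂ → ℂ, ∀ χ ∈ S, Λ (I χ) = Zx χ := by
    refine ⟨fun f => if h : ∃ χ, χ ∈ S ∧ I χ = f then Zx h.choose else 0, fun χ hχ => ?_⟩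
    have h : ∃ χ', χ' ∈ S ∧ I χ' = I χ := ⟨χ, hχ, rfl⟩
    change (if h : ∃ χ', χ' ∈ S ∧ I χ' = I χ then Zx h.choose else 0) = _
    rw [dif_pos h]
    exact hkey _ h.choose_spec.1 χ hχ h.choose_spec.2
  have hfib : ∀ S' : Set (RCC F), S' ⊆ S → S'.ncard ≤ d * (I '' S').ncard := by
    intro S' hS'
    have h1 := hFIB (L ≃ₐ[ℚ] L) (HF F L) hcom ((fun χ : RCC F => β χ.ψ) '' S')
    rw [hidx, (hinj.mono (hS'.trans hSP)).ncard_image, Set.image_image] at h1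
    have h2 : (fun χ : RCC F => indc (HF F L) (β χ.ψ)) = I := funext fun χ => (hI χ).symm
    rw [h2] at h1
    exact h1
  have hUI : I '' S ⊆ Irr (L ≃ₐ[ℚ] L) := by
    rintro _ ⟨χ, hχ, rfl⟩
    exact (hIrr χ hχ).1
  have hSd : (S.ncard : ℝ) ≤ d * (I '' S).ncard := by
    exact_mod_cast hfib S (Set.Subset.refl _)
  have hUc : ((I '' S).ncard : ℝ) ≤ (Irr (L ≃ₐ[ℚ] L)).ncard := by
    exact_mod_cast Set.ncard_le_ncard hUI hIf
  have hIN : (d : ℝ) * (Irr (L ≃ₐ[ℚ] L)).ncard ≤ (1 + (d : ℝ) ^ 2 * t) * N := by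
    have h5 : (d : ℝ) * (Irr (L ≃ₐ[ℚ] L)).ncard ≤ (Gen (HF F L)).ncard +
        (d : ℝ) ^ 2 * (Gen (HF F L))ᶜ.ncard := by exact_mod_cast hIc
    have h6 : ((Gen (HF F L)).ncard : ℝ) ≤ N := by
      rw [← hc2, ← Set.ncard_univ]
      exact_mod_cast Set.ncard_le_ncard (Set.subset_univ _) (Set.toFinite _)
    nlinarith [mul_le_mul_of_nonneg_left hc1 (sq_nonneg (d : ℝ))]
  have hI0 : (0 : ℝ) ≤ (Irr (L ≃ₐ[ℚ] L)).ncard := Nat.cast_nonneg _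
  refine ⟨hIf, I '' S, Λ, hUI, ?_, ?_, ?_, ?_⟩
  · have h3 : (1 - 3 * t) * N ≤ S.ncard := by linarith
    by_cases h0 : 1 - ε ≤ 0
    · exact (mul_nonpos_of_nonpos_of_nonneg h0 hI0).trans (Nat.cast_nonneg _)
    · rw [not_le] at h0
      refine le_of_mul_le_mul_left ?_ hd2
      refine le_trans ?_ (h3.trans hSd)
      calc (d : ℝ) * ((1 - ε) * (Irr (L ≃ₐ[ℚ] L)).ncard)
          = (1 - ε) * (d * (Irr (L ≃ₐ[ℚ] L)).ncard) := by ring
        _ ≤ (1 - ε) * ((1 + (d : ℝ) ^ 2 * t) * N) := mul_le_mul_of_nonneg_left hIN h0.le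
        _ = ((1 - ε) * (1 + (d : ℝ) ^ 2 * t)) * N := by ring
        _ ≤ _ := mul_le_mul_of_nonneg_right hta hNpos.le
  · rintro _ ⟨χ, hχ, rfl⟩
    obtain ⟨-, h1, h2⟩ := hIrr χ hχ
    refine ⟨by rw [← hd]; exact h1, h2, ⟨χ, hSP hχ, hΛ χ hχ⟩, ?_, ?_⟩
    · rw [hΛ χ hχ]
      exact (hEnt χ (hSP hχ)).1
    · intro D V _ _ _ ρ hρ s hs
      rw [hΛ χ hχ, (hEnt χ (hSP hχ)).2 s hs]
      exact hAL χ hχ D V ρ hρ s hs
  · rw [← hd]
    have h3 : (d : ℝ) * (I '' S).ncard ≤ d * (Irr (L ≃ₐ[ℚ] L)).ncard :=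
      mul_le_mul_of_nonneg_left hUc hd2.le
    have h4 : (1 + (d : ℝ) ^ 2 * t) * N ≤ ((1 + ε) * (1 - t)) * N :=
      mul_le_mul_of_nonneg_right htb hNpos.le
    have h5 : (1 + ε) * ((1 - t) * N) ≤ (1 + ε) * (Pr F (qi F q)).ncard :=
      mul_le_mul_of_nonneg_left hb (by linarith)
    linarith
  · intro w W hw
    rw [← hd]
    have h1 := fib_sum hPf hSP I d (by
      rintro _ ⟨χ, hχ, rfl⟩
      have h2 := hfib {χ' | χ' ∈ S ∧ I χ' = I χ} (fun χ' h => h.1)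
      have h3 : (I '' {χ' | χ' ∈ S ∧ I χ' = I χ}).ncard ≤ 1 := by
        have h4 : I '' {χ' | χ' ∈ S ∧ I χ' = I χ} ⊆ {I χ} := by
          rintro _ ⟨χ', h5, rfl⟩
          exact h5.2
        exact (Set.ncard_le_ncard h4 (Set.finite_singleton _)).trans
          (Set.ncard_singleton _).le
      exact h2.trans ((Nat.mul_le_mul_left d h3).trans (mul_one d).le))
      (fun χ => w (Zx χ)) (fun f => w (Λ f)) (fun χ hχ => by rw [hΛ χ hχ])
      (fun χ hχ => (hw χ hχ).1) W (fun χ hχ => (hw χ hχ).2)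
    refine h1.trans (add_le_add_right ?_ _)
    have hPpos : (0 : ℝ) < (Pr F (qi F q)).ncard := by
      have : 0 < (1 - t) * N := mul_pos (by linarith) hNpos
      linarith
    have hne : (Pr F (qi F q)).Nonempty := by
      rw [Set.nonempty_iff_ne_empty]
      intro h0
      rw [h0, Set.ncard_empty] at hPpos
      simp at hPpos
    obtain ⟨χ₀, hχ₀⟩ := hne
    have hW : 0 ≤ W := (hw χ₀ hχ₀).1.trans (hw χ₀ hχ₀).2
    have h2 : ((Pr F (qi F q) \ S).ncard : ℝ) ≤ ε * (Pr F (qi F q)).ncard := by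
      have h3 : 2 * t * N ≤ (ε * (1 - t)) * N := mul_le_mul_of_nonneg_right htc hNpos.le
      have h4 : ε * ((1 - t) * N) ≤ ε * (Pr F (qi F q)).ncard :=
        mul_le_mul_of_nonneg_left hb hε.le
      linarith
    calc ((Pr F (qi F q) \ S).ncard : ℝ) * W ≤ (ε * (Pr F (qi F q)).ncard) * W :=
          mul_le_mul_of_nonneg_right h2 hW
      _ = ε * W * (Pr F (qi F q)).ncard := by ring

end Pool.Agent.H49.SM
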